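import Pool.Agent.W751.RR.Stm

set_option autoImplicit false

open Polynomial Filter Topology MeasureTheory
open scoped ENNReal

namespace Pool.Agent.W376.RR

open Pool.Agent.W751.CD Pool.Agent.W751.RR

lemma m1_prob {ρ : ℝ} (hρ : 0 < ρ) : IsProbabilityMeasure (m1 ρ) := by
  constructor
  unfold m1
  rw [Measure.smul_apply, Measure.restrict_apply_univ, smul_eq_mul]
  apply ENNReal.inv_mul_cancel
  · exact (Metric.measure_closedBall_pos volume 0 hρ).ne'
  · exact measure_closedBall_lt_top.ne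

lemma mN_prob {ρ : ℝ} (hρ : 0 < ρ) (N : ℕ) : IsProbabilityMeasure (mN ρ N) := by
  have := m1_prob hρ
  unfold mN
  infer_instance

lemma natDegree_P {N : ℕ} (z : Fin N → ℂ) : (P z).natDegree = N := by
  unfold P
  rw [natDegree_prod_of_monic _ _ fun i _ => monic_X_sub_C _]
  simp

lemma eval_der {N : ℕ} (z : Fin N → ℂ) (w : ℂ) (h : (P z).eval w ≠ 0) :
    (derivative (P z)).eval w = (P z).eval w * ∑ i, (w - z i)⁻¹ := by
  have hne : ∀ i, w - z i ≠ 0 := by
    intro i hi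
    apply h
    unfold P
    rw [eval_prod]
    apply Finset.prod_eq_zero (Finset.mem_univ i)
    simp [hi]
  classical
  unfold P
  rw [derivative_prod_finset, eval_finsetSum, Finset.mul_sum]
  apply Finset.sum_congr rfl
  intro i _
  rw [eval_mul, eval_prod, eval_prod, ← Finset.mul_prod_erase Finset.univ _ (Finset.mem_univ i)]
  simp
  have := hne i
  field_simp

theorem ar : S_AR := by
  intro hUU hPB hPC hAR1 hAR2 ρ l R hρ hρe hl hR
  obtain ⟨hr0, -, -, η₀, hη₀, hV⟩ := hUU.1 ρ hρ hρe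
  obtain ⟨η, C₂, hη, hC₂, hA2⟩ := hAR2 hPB hPC ρ (r0 ρ / 2) (2 * r0 ρ) η₀ hρ (by positivity)
    (by linarith) hη₀ hV
  have hlog2 : 0 < Real.log 2 := Real.log_pos (by norm_num)
  refine ⟨Real.pi * R ^ 2 / (η ^ 2 * l ^ 2 * Real.log 2) + 4 * Real.pi * r0 ρ ^ 2 * C₂,
    by positivity, ?_⟩
  intro N hN
  have hN0 : (0 : ℝ) < N := by
    have : 0 < N := by omega
    exact_mod_cast this
  have hlogN : Real.log 2 ≤ Real.log N := by
    apply Real.log_le_log (by norm_num)
    exact_mod_cast hN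
  have hprob := mN_prob hρ N
  set T : Set ((Fin N → ℂ) × ℂ) := {q | (r0 ρ / 2 ≤ ‖q.2‖ ∧ ‖q.2‖ ≤ 2 * r0 ρ) ∧
    ‖∑ i, (q.2 - q.1 i)⁻¹‖ < η * N} with hT
  have hTm : MeasurableSet T := by
    have hm1 : Measurable fun q : (Fin N → ℂ) × ℂ => ‖q.2‖ := by fun_prop
    have hm2 : Measurable fun q : (Fin N → ℂ) × ℂ => ‖∑ i, (q.2 - q.1 i)⁻¹‖ := by fun_prop
    exact ((measurableSet_le measurable_const hm1).inter
      (measurableSet_le hm1 measurable_const)).inter (measurableSet_lt hm2 measurable_const)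
  have step1 : ∀ z : Fin N → ℂ, volume {w : ℂ | r0 ρ / 2 ≤ ‖w‖ ∧ ‖w‖ ≤ 2 * r0 ρ ∧
      l ≤ ‖(P z).eval w‖ ∧ ‖(P z).eval w‖ ≤ R} ≤
      ENNReal.ofReal (Real.pi * R ^ 2 / (η ^ 2 * l ^ 2 * N)) + volume (Prod.mk z ⁻¹' T) := by
    intro z
    have h1 := hAR1 (P z) N (by omega) (natDegree_P z) l R η hl hR hη
    refine le_trans (measure_mono (t := {w : ℂ | l ≤ ‖(P z).eval w‖ ∧ ‖(P z).eval w‖ ≤ R ∧
      η * N * ‖(P z).eval w‖ ≤ ‖(derivative (P z)).eval w‖} ∪ (Prod.mk z ⁻¹' T)) ?_)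
      ((measure_union_le _ _).trans (add_le_add h1 le_rfl))
    intro w hw
    obtain ⟨hw1, hw2, hw3, hw4⟩ := hw
    by_cases hc : η * N * ‖(P z).eval w‖ ≤ ‖(derivative (P z)).eval w‖
    · exact Or.inl ⟨hw3, hw4, hc⟩
    · right
      refine ⟨⟨hw1, hw2⟩, ?_⟩
      have hF : 0 < ‖(P z).eval w‖ := lt_of_lt_of_le hl hw3
      have hF' : (P z).eval w ≠ 0 := norm_pos_iff.1 hF
      rw [eval_der z w hF', norm_mul] at hc
      push Not at hc
      change ‖∑ i, (w - z i)⁻¹‖ < η * N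
      have : ‖(P z).eval w‖ * ‖∑ i, (w - z i)⁻¹‖ < ‖(P z).eval w‖ * (η * N) := by
        linarith [mul_comm (η * N) ‖(P z).eval w‖]
      exact lt_of_mul_lt_mul_left this hF.le
  have step2 : ∫⁻ z, volume (Prod.mk z ⁻¹' T) ∂(mN ρ N) ≤
      ENNReal.ofReal (C₂ * Real.log N / N) * ENNReal.ofReal (4 * Real.pi * r0 ρ ^ 2) := by
    rw [← Measure.prod_apply hTm, Measure.prod_apply_symm hTm]
    have h1 : ∀ w : ℂ, mN ρ N ((fun z => (z, w)) ⁻¹' T) ≤
        (Metric.closedBall (0 : ℂ) (2 * r0 ρ)).indicator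
          (fun _ => ENNReal.ofReal (C₂ * Real.log N / N)) w := by
      intro w
      by_cases hw : r0 ρ / 2 ≤ ‖w‖ ∧ ‖w‖ ≤ 2 * r0 ρ
      · rw [Set.indicator_of_mem (by simpa using hw.2)]
        refine (measure_mono ?_).trans (hA2 N hN w hw.1 hw.2)
        intro z hz
        exact hz.2
      · have : (fun z : Fin N → ℂ => (z, w)) ⁻¹' T = ∅ := by
          ext z
          simp only [Set.mem_preimage, Set.mem_empty_iff_false, iff_false]
          intro hz
          exact hw hz.1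
        rw [this, measure_empty]
        exact zero_le
    refine (lintegral_mono h1).trans ?_
    rw [lintegral_indicator Metric.isClosed_closedBall.measurableSet, setLIntegral_const,
      Complex.volume_closedBall]
    apply le_of_eq
    congr 1
    rw [← ENNReal.ofReal_pow (by positivity)]
    have : (NNReal.pi : ℝ≥0∞) = ENNReal.ofReal Real.pi := by
      rw [ENNReal.ofReal]
      congr 1
      apply NNReal.eq
      simp [Real.pi_pos.le]
    rw [this, ← ENNReal.ofReal_mul (by positivity)]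
    congr 1
    ring
  refine (lintegral_mono step1).trans ?_
  rw [lintegral_add_left measurable_const, lintegral_const, measure_univ, mul_one]
  refine (add_le_add le_rfl step2).trans ?_
  rw [← ENNReal.ofReal_mul (by positivity), ← ENNReal.ofReal_add (by positivity) (by positivity)]
  apply ENNReal.ofReal_le_ofReal
  have h3 : Real.pi * R ^ 2 / (η ^ 2 * l ^ 2 * N) ≤
      Real.pi * R ^ 2 / (η ^ 2 * l ^ 2 * Real.log 2) * Real.log N / N := by
    have h4 : Real.pi * R ^ 2 / (η ^ 2 * l ^ 2 * Real.log 2) * Real.log N / N =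
        Real.pi * R ^ 2 / (η ^ 2 * l ^ 2 * N) * (Real.log N / Real.log 2) := by
      field_simp
    rw [h4]
    apply le_mul_of_one_le_right (by positivity)
    rw [le_div_iff₀ hlog2]
    linarith
  calc Real.pi * R ^ 2 / (η ^ 2 * l ^ 2 * N) + C₂ * Real.log N / N * (4 * Real.pi * r0 ρ ^ 2)
      ≤ Real.pi * R ^ 2 / (η ^ 2 * l ^ 2 * Real.log 2) * Real.log N / N +
        C₂ * Real.log N / N * (4 * Real.pi * r0 ρ ^ 2) := by linarith
    _ = _ := by ring

end Pool.Agent.W376.RR
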